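import Pool.Agent.Q264.KS.Final2

/-!
# MP_a3b3eb_an: a finite dimensional normed space is a Hilbert space iff it has property (P)

Project KS: lemma files of helpers 18, 25, 65, 71, 86, 103, 113, 121, 154, 178, 181, 208, 214,
222, 224, 231, 252 and others; the smooth and planar cases were found independently by helper86.
-/

namespace Pool.Agent.Results.MP_a3b3eb_an.PropertyPHilbert

open Module Pool.Agent.Q264.KS

/-- A real normed space of finite dimension at least 2 has property (P) if and only if it is a
Hilbert space. -/
theorem result (X : Type*) [NormedAddCommGroup X] [NormedSpace ℝ X] [FiniteDimensional ℝ X]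
    (hn : 2 ≤ finrank ℝ X) : PropP X ↔ IsHilb X :=
  final hn

end Pool.Agent.Results.MP_a3b3eb_an.PropertyPHilbert
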